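import Mathlib

/-!
Stabbing queries on R-trees: in dimension `d ≥ 2` there are sets of `N` axis-parallel boxes such
that on every R-tree some stabbing query which reports nothing visits `Ω((N/B)^(1-1/d))` nodes.
-/

set_option autoImplicit false

namespace Pool.Agent.Results.MP_a7848c_lc.StabbingLowerBound

/-- An axis-parallel box in `ℝ^d`. -/
structure Box (d : ℕ) where
  /-- the smallest coordinates -/
  lo : Fin d → ℝ
  /-- the largest coordinates -/
  hi : Fin d → ℝ
  le : ∀ i, lo i ≤ hi i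

/-- The point `q` lies in the box `b`. -/
def Box.Has {d : ℕ} (b : Box d) (q : Fin d → ℝ) : Prop := ∀ i, b.lo i ≤ q i ∧ q i ≤ b.hi i

/-- The point `q` lies in the minimal axis-parallel bounding box of the boxes in `s`, that is, in
every axis-parallel box which includes all boxes in `s`. -/
def InHull {d : ℕ} (s : Multiset (Box d)) (q : Fin d → ℝ) : Prop :=
  ∀ c : Box d, (∀ b ∈ s, ∀ p, b.Has p → c.Has p) → c.Has q

/-- Rooted trees whose leaves store boxes: a leaf with `k` stored boxes, or an internal node with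
`k` children. -/
inductive Tree (d : ℕ) : Type
  | leaf (k : ℕ) (s : Fin k → Box d) : Tree d
  | node (k : ℕ) (c : Fin k → Tree d) : Tree d

/-- The multiset of boxes stored in the leaves of the tree. -/
def Tree.elems {d : ℕ} : Tree d → Multiset (Box d)
  | .leaf _ s => Finset.univ.val.map s
  | .node _ c => ∑ i, (c i).elems

/-- All leaves of the tree are at depth `h`. -/
def Tree.LeavesAt {d : ℕ} : Tree d → ℕ → Prop
  | .leaf _ _, h => h = 0
  | .node _ c, h => ∃ h', h = h' + 1 ∧ ∀ i, (c i).LeavesAt h'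

/-- Every node (the root included) has at least `l` and at most `u` children, or stored boxes in
the case of a leaf. -/
def Tree.Occ {d : ℕ} (l u : ℝ) : Tree d → Prop
  | .leaf k _ => l ≤ k ∧ (k : ℝ) ≤ u
  | .node k c => l ≤ k ∧ (k : ℝ) ≤ u ∧ ∀ i, (c i).Occ l u

/-- Every node has at most `u` children (or stored boxes), and every node different from the root
has at least `l` children (or stored boxes). -/
def Tree.RootOcc {d : ℕ} (l u : ℝ) : Tree d → Prop
  | .leaf k _ => (k : ℝ) ≤ u
  | .node k c => (k : ℝ) ≤ u ∧ ∀ i, (c i).Occ l u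

/-- `t` is an R-tree on the finite set `S` of boxes: all leaves have the same depth, each element of
`S` is stored in exactly one leaf (once), and the numbers of children (of stored boxes, for leaves)
lie between `l` and `u`, the root being exempt from the lower bound. -/
structure IsRTree {d : ℕ} (l u : ℝ) (S : Finset (Box d)) (t : Tree d) : Prop where
  leaves : ∃ h, t.LeavesAt h
  elems : t.elems = S.val
  occ : t.RootOcc l u

open Classical in
/-- The number of nodes visited by the stabbing query with the point `q`: the traversal starts at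
the root and visits a child exactly when `q` lies in the bounding box of the child. -/
noncomputable def Tree.cost {d : ℕ} (q : Fin d → ℝ) : Tree d → ℕ
  | .leaf _ _ => 1
  | .node _ c => 1 + ∑ i, if InHull (c i).elems q then (c i).cost q else 0

/-! ### Visited leaves -/

open Classical in
/-- the number of leaves whose bounding box contains `q` -/
noncomputable def lc {d : ℕ} (q : Fin d → ℝ) : Tree d → ℕ
  | .leaf k s => if InHull (Tree.leaf k s).elems q then 1 else 0
  | .node _ c => ∑ i, lc q (c i)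

theorem InHull.mono {d : ℕ} {s s' : Multiset (Box d)} {q : Fin d → ℝ} (h : InHull s q)
    (hs : ∀ b ∈ s, b ∈ s') : InHull s' q := fun c hc => h c fun b hb => hc b (hs b hb)

theorem elems_child {d k : ℕ} (c : Fin k → Tree d) (i : Fin k) {b : Box d}
    (hb : b ∈ (c i).elems) : b ∈ (Tree.node k c).elems := by
  simp only [Tree.elems]
  rw [Multiset.mem_sum]
  exact ⟨i, Finset.mem_univ i, hb⟩

theorem lc_eq_zero {d : ℕ} (q : Fin d → ℝ) (t : Tree d) (h : ¬ InHull t.elems q) : lc q t = 0 := by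
  induction t with
  | leaf k s =>
    simp only [lc]
    rw [if_neg h]
  | node k c ih =>
    simp only [lc]
    apply Finset.sum_eq_zero
    intro i _
    exact ih i fun h' => h (h'.mono fun b hb => elems_child c i hb)

theorem one_le_cost {d : ℕ} (q : Fin d → ℝ) (t : Tree d) : 1 ≤ t.cost q := by
  cases t with
  | leaf k s => simp [Tree.cost]
  | node k c => simp [Tree.cost]

theorem lc_le_cost {d : ℕ} (q : Fin d → ℝ) (t : Tree d) : lc q t ≤ t.cost q := by
  classical
  induction t with
  | leaf k s =>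
    simp only [lc, Tree.cost]
    split_ifs <;> omega
  | node k c ih =>
    simp only [lc, Tree.cost]
    have h1 : ∑ i, lc q (c i) ≤ ∑ i, if InHull (c i).elems q then (c i).cost q else 0 := by
      apply Finset.sum_le_sum
      intro i _
      split_ifs with h
      · exact ih i
      · rw [lc_eq_zero q (c i) h]
    omega

/-! ### The boxes and the queries -/

/-- the box with index `v` -/
def gb (m n : ℕ) (v : Fin (m + 2) → Fin n) : Box (m + 2) where
  lo i := ((v (i - 1) : ℕ) : ℝ) - n
  hi i := ((v i : ℕ) : ℝ)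
  le i := by
    have h1 : ((v (i - 1) : ℕ) : ℝ) ≤ n := by exact_mod_cast (v (i - 1)).isLt.le
    have h2 : (0 : ℝ) ≤ ((v i : ℕ) : ℝ) := Nat.cast_nonneg _
    linarith

/-- the query with index `(k, x)` -/
noncomputable def qq (m n : ℕ) (k : Fin (m + 2)) (x : ℕ) : Fin (m + 2) → ℝ := fun i =>
  if i = k then (x : ℝ) + 1 / 2 else if i = k + 1 then (x : ℝ) + 1 / 2 - n else 0

theorem gb_inj (m n : ℕ) : Function.Injective (gb m n) := by
  intro v v' h
  funext i
  have h1 : (gb m n v).hi i = (gb m n v').hi i := by rw [h]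
  have h2 : ((v i : ℕ) : ℝ) = ((v' i : ℕ) : ℝ) := h1
  exact Fin.ext (by exact_mod_cast h2)

theorem succ_ne (m : ℕ) (k : Fin (m + 2)) : k + 1 ≠ k := by
  intro h
  have h1 : (1 : Fin (m + 2)) = 0 := by
    have := congrArg (fun z => z - k) h
    simpa using this
  exact absurd h1 (by simp [Fin.ext_iff])

theorem not_has {m n : ℕ} (v : Fin (m + 2) → Fin n) (k : Fin (m + 2)) (x : ℕ) :
    ¬ (gb m n v).Has (qq m n k x) := by
  intro h
  have h1 := (h k).2
  have h2 := (h (k + 1)).1
  simp only [gb, qq, if_true, if_neg (succ_ne m k), add_sub_cancel_right] at h1 h2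
  have h3 : (x : ℝ) < ((v k : ℕ) : ℝ) := by linarith
  have h4 : ((v k : ℕ) : ℝ) < (x : ℝ) + 1 := by linarith
  have h5 : x < (v k : ℕ) := by exact_mod_cast h3
  have h6 : (v k : ℕ) < x + 1 := by exact_mod_cast h4
  omega

theorem inHull_of {m n : ℕ} {s : Multiset (Box (m + 2))} {v1 v2 : Fin (m + 2) → Fin n}
    (h1 : gb m n v1 ∈ s) (h2 : gb m n v2 ∈ s) {k : Fin (m + 2)} {x : ℕ}
    (hx1 : (v1 k : ℕ) ≤ x) (hx2 : x + 1 ≤ (v2 k : ℕ)) : InHull s (qq m n k x) := by
  intro c hc
  have key : ∀ v, gb m n v ∈ s → ∀ i, c.lo i ≤ ((v (i - 1) : ℕ) : ℝ) - n ∧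
      ((v i : ℕ) : ℝ) ≤ c.hi i := by
    intro v hv i
    constructor
    · exact (hc _ hv (gb m n v).lo (fun j => ⟨le_refl _, (gb m n v).le j⟩) i).1
    · exact (hc _ hv (gb m n v).hi (fun j => ⟨(gb m n v).le j, le_refl _⟩) i).2
  have hn : ((v2 k : ℕ) : ℝ) + 1 ≤ n := by exact_mod_cast (v2 k).isLt
  have hx1' : ((v1 k : ℕ) : ℝ) ≤ x := by exact_mod_cast hx1
  have hx2' : (x : ℝ) + 1 ≤ ((v2 k : ℕ) : ℝ) := by exact_mod_cast hx2
  intro i
  have h3 := key v1 h1 i
  have h4 := key v2 h2 i
  have h5 : ((v1 (i - 1) : ℕ) : ℝ) ≤ n := by exact_mod_cast (v1 (i - 1)).isLt.le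
  have h6 : (0 : ℝ) ≤ ((v1 i : ℕ) : ℝ) := Nat.cast_nonneg _
  have h7 : (0 : ℝ) ≤ (x : ℝ) := Nat.cast_nonneg _
  by_cases hik : i = k
  · subst hik
    simp only [qq, if_true]
    constructor <;> linarith [h3.1, h4.2]
  · by_cases hik' : i = k + 1
    · have h8 : i - 1 = k := by rw [hik', add_sub_cancel_right]
      simp only [qq, if_neg hik, if_pos hik']
      rw [h8] at h3
      constructor <;> linarith [h3.1, h3.2]
    · simp only [qq, if_neg hik, if_neg hik']
      constructor <;> linarith [h3.1, h3.2]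

/-! ### Counting -/

/-- the number of visited leaves, summed over all queries -/
noncomputable def F (m n : ℕ) (t : Tree (m + 2)) : ℕ :=
  ∑ k : Fin (m + 2), ∑ x ∈ Finset.range (n - 1), lc (qq m n k x) t

theorem F_node (m n k : ℕ) (c : Fin k → Tree (m + 2)) :
    F m n (.node k c) = ∑ i, F m n (c i) := by
  simp only [F, lc]
  have h1 : ∀ j : Fin (m + 2), ∑ x ∈ Finset.range (n - 1), ∑ i, lc (qq m n j x) (c i) =
      ∑ i, ∑ x ∈ Finset.range (n - 1), lc (qq m n j x) (c i) := fun j => Finset.sum_comm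
  simp_rw [h1]
  exact Finset.sum_comm

/-- the number of elements of a leaf is bounded in terms of the number of queries visiting it -/
theorem leaf_bound (m n K : ℕ) (s : Fin K → Box (m + 2)) (hs : Function.Injective s)
    (hr : ∀ i, ∃ v, s i = gb m n v) : K ≤ (F m n (.leaf K s) + 1) ^ (m + 2) := by
  classical
  rcases Nat.eq_zero_or_pos K with rfl | hK
  · exact Nat.zero_le _
  choose v hv using hr
  have hvi : Function.Injective v := fun i j h => hs (by rw [hv i, hv j, h])
  have : Nonempty (Fin K) := ⟨⟨0, hK⟩⟩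
  have hmin : ∀ k : Fin (m + 2), ∃ i0 : Fin K, ∀ i, (v i0 k : ℕ) ≤ (v i k : ℕ) := by
    intro k
    obtain ⟨i0, -, hi0⟩ := Finset.exists_min_image (Finset.univ : Finset (Fin K))
      (fun i => (v i k : ℕ)) Finset.univ_nonempty
    exact ⟨i0, fun i => hi0 i (Finset.mem_univ i)⟩
  choose i0 hi0 using hmin
  have hmem : ∀ i, gb m n (v i) ∈ (Tree.leaf K s).elems := by
    intro i
    simp only [Tree.elems]
    rw [Multiset.mem_map]
    exact ⟨i, Finset.mem_univ_val i, hv i⟩
  have hF : ∀ k i, (v i k : ℕ) - (v (i0 k) k : ℕ) ≤ F m n (.leaf K s) := by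
    intro k i
    have h1 : (Finset.Ico (v (i0 k) k : ℕ) (v i k : ℕ)).card ≤
        ∑ x ∈ Finset.range (n - 1), lc (qq m n k x) (.leaf K s) := by
      rw [Finset.card_eq_sum_ones]
      have hsub : Finset.Ico (v (i0 k) k : ℕ) (v i k : ℕ) ⊆ Finset.range (n - 1) := by
        intro x hx
        rw [Finset.mem_Ico] at hx
        rw [Finset.mem_range]
        have := (v i k).isLt
        omega
      calc ∑ x ∈ Finset.Ico (v (i0 k) k : ℕ) (v i k : ℕ), 1
          ≤ ∑ x ∈ Finset.Ico (v (i0 k) k : ℕ) (v i k : ℕ), lc (qq m n k x) (.leaf K s) := by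
            apply Finset.sum_le_sum
            intro x hx
            rw [Finset.mem_Ico] at hx
            simp only [lc]
            rw [if_pos (inHull_of (hmem (i0 k)) (hmem i) hx.1 hx.2)]
        _ ≤ ∑ x ∈ Finset.range (n - 1), lc (qq m n k x) (.leaf K s) :=
            Finset.sum_le_sum_of_subset hsub
    rw [Nat.card_Ico] at h1
    refine h1.trans ?_
    exact Finset.single_le_sum (f := fun k => ∑ x ∈ Finset.range (n - 1),
      lc (qq m n k x) (.leaf K s)) (fun _ _ => Nat.zero_le _) (Finset.mem_univ k)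
  let φ : Fin K → (Fin (m + 2) → Fin (F m n (.leaf K s) + 1)) := fun i k =>
    ⟨(v i k : ℕ) - (v (i0 k) k : ℕ), Nat.lt_succ_of_le (hF k i)⟩
  have hφ : Function.Injective φ := by
    intro i j hij
    apply hvi
    funext k
    have h1 : (v i k : ℕ) - (v (i0 k) k : ℕ) = (v j k : ℕ) - (v (i0 k) k : ℕ) := by
      have := congrArg (fun z : Fin (F m n (.leaf K s) + 1) => (z : ℕ)) (congrFun hij k)
      exact this
    have h2 := hi0 k i
    have h3 := hi0 k j
    exact Fin.ext (by omega)
  have h4 := Fintype.card_le_of_injective φ hφ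
  simpa using h4

theorem F_bound (m n : ℕ) (l u : ℝ) (hl : (2 : ℝ) ^ (m + 2) ≤ l) (t : Tree (m + 2))
    (hocc : t.Occ l u) (hnd : t.elems.Nodup) (hr : ∀ b ∈ t.elems, ∃ v, b = gb m n v) :
    (Multiset.card t.elems : ℝ) * u ^ (1 / ((m : ℝ) + 2) - 1) / 2 ≤ F m n t := by
  induction t with
  | leaf K s =>
    have hKl : l ≤ K := hocc.1
    have hKu : (K : ℝ) ≤ u := hocc.2
    have hcard : Multiset.card (Tree.leaf K s).elems = K := by
      simp [Tree.elems]
    rw [hcard]
    have hinj : Function.Injective s := by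
      simp only [Tree.elems] at hnd
      have h1 := Multiset.inj_on_of_nodup_map hnd
      intro i j hij
      exact h1 i (Finset.mem_univ_val i) j (Finset.mem_univ_val j) hij
    have hr' : ∀ i, ∃ v, s i = gb m n v := by
      intro i
      apply hr
      simp only [Tree.elems]
      rw [Multiset.mem_map]
      exact ⟨i, Finset.mem_univ_val i, rfl⟩
    have h1 := leaf_bound m n K s hinj hr'
    set W := F m n (.leaf K s) with hW
    have hd : (0 : ℝ) < (m : ℝ) + 2 := by positivity
    have h2 : (K : ℝ) ≤ ((W : ℝ) + 1) ^ (m + 2) := by exact_mod_cast h1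
    have hKpos : (0 : ℝ) < K := lt_of_lt_of_le (by positivity) (hl.trans hKl)
    have h3 : (K : ℝ) ^ (1 / ((m : ℝ) + 2)) ≤ (W : ℝ) + 1 := by
      have h4 := Real.rpow_le_rpow hKpos.le h2 (z := 1 / ((m : ℝ) + 2)) (by positivity)
      rw [← Real.rpow_natCast, ← Real.rpow_mul (by positivity)] at h4
      have h5 : (((m + 2 : ℕ) : ℝ)) * (1 / ((m : ℝ) + 2)) = 1 := by
        push_cast
        field_simp
      rw [h5, Real.rpow_one] at h4
      exact h4
    have h6 : (2 : ℝ) ≤ (K : ℝ) ^ (1 / ((m : ℝ) + 2)) := by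
      have h7 := Real.rpow_le_rpow (by positivity) (hl.trans hKl) (z := 1 / ((m : ℝ) + 2))
        (by positivity)
      rw [← Real.rpow_natCast, ← Real.rpow_mul (by positivity)] at h7
      have h5 : (((m + 2 : ℕ) : ℝ)) * (1 / ((m : ℝ) + 2)) = 1 := by
        push_cast
        field_simp
      rw [h5, Real.rpow_one] at h7
      exact h7
    have h8 : (K : ℝ) * u ^ (1 / ((m : ℝ) + 2) - 1) ≤ (K : ℝ) ^ (1 / ((m : ℝ) + 2)) := by
      have h9 : u ^ (1 / ((m : ℝ) + 2) - 1) ≤ (K : ℝ) ^ (1 / ((m : ℝ) + 2) - 1) := by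
        apply Real.rpow_le_rpow_of_nonpos hKpos hKu
        have : 1 / ((m : ℝ) + 2) ≤ 1 := by
          rw [div_le_one hd]
          have : (0 : ℝ) ≤ m := Nat.cast_nonneg _
          linarith
        linarith
      calc (K : ℝ) * u ^ (1 / ((m : ℝ) + 2) - 1)
          ≤ (K : ℝ) * (K : ℝ) ^ (1 / ((m : ℝ) + 2) - 1) :=
            mul_le_mul_of_nonneg_left h9 hKpos.le
        _ = (K : ℝ) ^ (1 / ((m : ℝ) + 2)) := by
            rw [Real.rpow_sub_one hKpos.ne']
            field_simp
    linarith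
  | node K c ih =>
    rw [F_node]
    have hcard : (Multiset.card (Tree.node K c).elems : ℝ) =
        ∑ i, (Multiset.card (c i).elems : ℝ) := by
      simp only [Tree.elems]
      rw [Multiset.card_sum]
      push_cast
      rfl
    rw [hcard, Finset.sum_mul, Finset.sum_div]
    push_cast
    apply Finset.sum_le_sum
    intro i _
    apply ih i (hocc.2.2 i)
    · apply Multiset.nodup_of_le _ hnd
      simp only [Tree.elems]
      exact Finset.single_le_sum (f := fun i => (c i).elems) (fun _ _ => Multiset.zero_le _)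
        (Finset.mem_univ i)
    · intro b hb
      exact hr b (elems_child c i hb)


/-! ### The result -/

theorem exists_size (d N : ℕ) (hd : 1 ≤ d) :
    ∃ n : ℕ, N ≤ n ^ d ∧ (1 ≤ N → 1 ≤ n ∧ (n - 1) ^ d < N) := by
  classical
  have h : ∃ n : ℕ, N ≤ n ^ d := ⟨N, Nat.le_self_pow (by omega) N⟩
  refine ⟨Nat.find h, Nat.find_spec h, fun hN => ?_⟩
  have h1 : 1 ≤ Nat.find h := by
    rcases Nat.eq_zero_or_pos (Nat.find h) with h0 | h0
    · have h2 := Nat.find_spec h
      rw [h0, zero_pow (by omega)] at h2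
      omega
    · exact h0
  refine ⟨h1, ?_⟩
  have h2 := Nat.find_min h (m := Nat.find h - 1) (by omega)
  omega

theorem exists_S (m N : ℕ) : ∃ S : Finset (Box (m + 2)), S.card = N ∧ ∃ n : ℕ,
    (1 ≤ N → 1 ≤ n ∧ (n - 1) ^ (m + 2) < N) ∧ ∀ b ∈ S, ∃ v, b = gb m n v := by
  classical
  obtain ⟨n, hn, hn'⟩ := exists_size (m + 2) N (by omega)
  have h1 : N ≤ ((Finset.univ : Finset (Fin (m + 2) → Fin n)).image (gb m n)).card := by
    rw [Finset.card_image_of_injective _ (gb_inj m n)]
    simpa using hn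
  obtain ⟨S, hS, hc⟩ := Finset.exists_subset_card_eq h1
  refine ⟨S, hc, n, hn', fun b hb => ?_⟩
  have h2 := hS hb
  rw [Finset.mem_image] at h2
  obtain ⟨v, -, hv⟩ := h2
  exact ⟨v, hv.symm⟩

theorem result (d : ℕ) (hd : 2 ≤ d) :
    ∃ S : ℕ → Finset (Box d), (∀ N, (S N).card = N) ∧
      ∀ c₁ c₂ : ℝ, 0 < c₁ → 0 < c₂ → ∃ C : ℝ, 0 < C ∧ ∃ B₀ : ℝ, ∀ B : ℝ, B₀ ≤ B → ∀ N : ℕ,
        ∀ t : Tree d, IsRTree (c₁ * B) (c₂ * B) (S N) t →
          ∃ q : Fin d → ℝ, (∀ b ∈ S N, ¬ b.Has q) ∧
            C * ((N : ℝ) / B) ^ (1 - 1 / (d : ℝ)) ≤ t.cost q := by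
  classical
  obtain ⟨m, rfl⟩ : ∃ m, d = m + 2 := ⟨d - 2, by omega⟩
  choose S hS n hn hr using exists_S m
  refine ⟨S, hS, fun c₁ c₂ hc₁ hc₂ => ?_⟩
  have hd0 : (0 : ℝ) < (m : ℝ) + 2 := by positivity
  refine ⟨c₂ ^ (1 / ((m : ℝ) + 2) - 1) / (2 * ((m : ℝ) + 2)), by positivity,
    max 1 ((2 : ℝ) ^ (m + 2) / c₁), fun B hB N t ht => ?_⟩
  have hB1 : 1 ≤ B := (le_max_left _ _).trans hB
  have hB0 : 0 < B := by linarith
  have hBl : (2 : ℝ) ^ (m + 2) ≤ c₁ * B := by
    have := (le_max_right _ _).trans hB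
    rw [div_le_iff₀ hc₁] at this
    linarith
  have hcast : (((m + 2 : ℕ)) : ℝ) = (m : ℝ) + 2 := by push_cast; ring
  rw [hcast]
  set e : ℝ := 1 - 1 / ((m : ℝ) + 2) with he
  have he' : 1 / ((m : ℝ) + 2) - 1 = -e := by rw [he]; ring
  have hed : 1 / ((m : ℝ) + 2) ≤ 1 := by
    rw [div_le_one hd0]
    have : (0 : ℝ) ≤ m := Nat.cast_nonneg _
    linarith
  have he0 : 0 ≤ e := by rw [he]; linarith
  rw [he']
  have hnd : t.elems.Nodup := by rw [ht.elems]; exact (S N).nodup
  have hrt : ∀ b ∈ t.elems, ∃ v, b = gb m (n N) v := by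
    intro b hb
    rw [ht.elems] at hb
    exact hr N b hb
  have hcard : Multiset.card t.elems = N := by
    rw [ht.elems]
    exact hS N
  have hcc : c₂ ^ (-e) * c₂ ^ e = 1 := by
    rw [← Real.rpow_add hc₂, neg_add_cancel, Real.rpow_zero]
  cases t with
  | leaf K s =>
    have hK : (K : ℝ) ≤ c₂ * B := ht.occ
    have hKN : K = N := by
      rw [← hcard]
      simp [Tree.elems]
    rw [hKN] at hK
    refine ⟨fun _ => (n N : ℝ), ?_, ?_⟩
    · intro b hb hq
      obtain ⟨v, rfl⟩ := hr N b hb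
      have h1 := (hq 0).2
      simp only [gb] at h1
      have h2 : ((v 0 : ℕ) : ℝ) < (n N : ℝ) := by exact_mod_cast (v 0).isLt
      linarith
    · have h1 : ((N : ℝ) / B) ^ e ≤ c₂ ^ e := by
        apply Real.rpow_le_rpow (by positivity) _ he0
        rw [div_le_iff₀ hB0]
        exact hK
      have h2 : c₂ ^ (-e) / (2 * ((m : ℝ) + 2)) * ((N : ℝ) / B) ^ e ≤ 1 := by
        calc c₂ ^ (-e) / (2 * ((m : ℝ) + 2)) * ((N : ℝ) / B) ^ e
            ≤ c₂ ^ (-e) / (2 * ((m : ℝ) + 2)) * c₂ ^ e :=
              mul_le_mul_of_nonneg_left h1 (by positivity)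
          _ = (c₂ ^ (-e) * c₂ ^ e) / (2 * ((m : ℝ) + 2)) := by ring
          _ = 1 / (2 * ((m : ℝ) + 2)) := by rw [hcc]
          _ ≤ 1 := by
            rw [div_le_one (by positivity)]
            have : (0 : ℝ) ≤ m := Nat.cast_nonneg _
            linarith
      have h3 : (1 : ℝ) ≤ ((Tree.leaf K s).cost fun _ => (n N : ℝ)) := by
        exact_mod_cast one_le_cost _ _
      linarith
  | node K c =>
    have hch : ∀ i, (c i).Occ (c₁ * B) (c₂ * B) := ht.occ.2
    have hF : (N : ℝ) * (c₂ * B) ^ (-e) / 2 ≤ F m (n N) (.node K c) := by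
      have h1 : (N : ℝ) = ∑ i, (Multiset.card (c i).elems : ℝ) := by
        rw [← hcard]
        simp only [Tree.elems]
        rw [Multiset.card_sum]
        push_cast
        rfl
      rw [F_node, h1, Finset.sum_mul, Finset.sum_div]
      push_cast
      apply Finset.sum_le_sum
      intro i _
      rw [← he']
      apply F_bound m (n N) (c₁ * B) (c₂ * B) hBl (c i) (hch i)
      · apply Multiset.nodup_of_le _ hnd
        simp only [Tree.elems]
        exact Finset.single_le_sum (f := fun i => (c i).elems) (fun _ _ => Multiset.zero_le _)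
          (Finset.mem_univ i)
      · intro b hb
        exact hrt b (elems_child c i hb)
    rcases Nat.eq_zero_or_pos N with hN | hN
    · refine ⟨qq m (n N) 0 0, ?_, ?_⟩
      · intro b hb
        obtain ⟨v, rfl⟩ := hr N b hb
        exact not_has v 0 0
      · have hepos : 0 < e := by
          rw [he]
          have : 1 / ((m : ℝ) + 2) < 1 := by
            rw [div_lt_one hd0]
            have : (0 : ℝ) ≤ m := Nat.cast_nonneg _
            linarith
          linarith
        rw [hN]
        simp only [Nat.cast_zero, zero_div]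
        rw [Real.zero_rpow hepos.ne', mul_zero]
        exact Nat.cast_nonneg _
    obtain ⟨hn1, hn2⟩ := hn N hN
    by_contra hcon
    push Not at hcon
    have hlt : ∀ (k : Fin (m + 2)) (x : ℕ), (lc (qq m (n N) k x) (.node K c) : ℝ) <
        c₂ ^ (-e) / (2 * ((m : ℝ) + 2)) * ((N : ℝ) / B) ^ e := by
      intro k x
      have h1 := hcon (qq m (n N) k x) (by
        intro b hb
        obtain ⟨v, rfl⟩ := hr N b hb
        exact not_has v k x)
      have h2 : (lc (qq m (n N) k x) (.node K c) : ℝ) ≤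
          ((Tree.node K c).cost (qq m (n N) k x) : ℝ) := by
        exact_mod_cast lc_le_cost _ _
      linarith
    set X := c₂ ^ (-e) / (2 * ((m : ℝ) + 2)) * ((N : ℝ) / B) ^ e with hX
    have hNpos : (0 : ℝ) < N := by exact_mod_cast hN
    have hFpos : (0 : ℝ) < F m (n N) (.node K c) := by
      have : (0 : ℝ) < (N : ℝ) * (c₂ * B) ^ (-e) / 2 := by positivity
      linarith
    have hn3 : (((n N - 1 : ℕ)) : ℝ) ≤ (N : ℝ) ^ (1 / ((m : ℝ) + 2)) := by
      have h1 : ((n N - 1 : ℕ) : ℝ) ^ (m + 2) ≤ (N : ℝ) := by exact_mod_cast hn2.le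
      have h4 := Real.rpow_le_rpow (by positivity) h1 (z := 1 / ((m : ℝ) + 2)) (by positivity)
      rw [← Real.rpow_natCast, ← Real.rpow_mul (by positivity)] at h4
      have h5 : (((m + 2 : ℕ) : ℝ)) * (1 / ((m : ℝ) + 2)) = 1 := by
        push_cast
        field_simp
      rw [h5, Real.rpow_one] at h4
      exact h4
    have hn4 : 0 < n N - 1 := by
      rcases Nat.eq_zero_or_pos (n N - 1) with h0 | h0
      · exfalso
        have : F m (n N) (.node K c) = 0 := by
          simp [F, h0]
        rw [this] at hFpos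
        simp at hFpos
      · exact h0
    have hFlt : (F m (n N) (.node K c) : ℝ) < ((m : ℝ) + 2) * ((n N - 1 : ℕ) * X) := by
      simp only [F]
      push_cast
      calc ∑ k : Fin (m + 2), ∑ x ∈ Finset.range (n N - 1),
            (lc (qq m (n N) k x) (.node K c) : ℝ)
          < ∑ k : Fin (m + 2), ∑ x ∈ Finset.range (n N - 1), X := by
            apply Finset.sum_lt_sum_of_nonempty Finset.univ_nonempty
            intro k _
            apply Finset.sum_lt_sum_of_nonempty
            · exact ⟨0, Finset.mem_range.2 hn4⟩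
            · intro x _
              exact hlt k x
        _ = ((m : ℝ) + 2) * ((n N - 1 : ℕ) * X) := by
            rw [Finset.sum_const, Finset.sum_const, Finset.card_univ, Finset.card_range,
              Fintype.card_fin, nsmul_eq_mul, nsmul_eq_mul]
            push_cast
            ring
    have hXpos : 0 ≤ X := by rw [hX]; positivity
    have h1 : ((m : ℝ) + 2) * ((n N - 1 : ℕ) * X) ≤
        ((m : ℝ) + 2) * ((N : ℝ) ^ (1 / ((m : ℝ) + 2)) * X) := by
      apply mul_le_mul_of_nonneg_left _ hd0.le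
      exact mul_le_mul_of_nonneg_right hn3 hXpos
    have h2 : ((m : ℝ) + 2) * ((N : ℝ) ^ (1 / ((m : ℝ) + 2)) * X) =
        (N : ℝ) * (c₂ * B) ^ (-e) / 2 := by
      have h3 : (N : ℝ) ^ (1 / ((m : ℝ) + 2)) * (N : ℝ) ^ e = N := by
        rw [← Real.rpow_add hNpos, he]
        have : 1 / ((m : ℝ) + 2) + (1 - 1 / ((m : ℝ) + 2)) = 1 := by ring
        rw [this, Real.rpow_one]
      have h4 : ((N : ℝ) / B) ^ e = (N : ℝ) ^ e * B ^ (-e) := by
        rw [Real.div_rpow hNpos.le hB0.le, Real.rpow_neg hB0.le]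
        rfl
      rw [hX, h4, Real.mul_rpow hc₂.le hB0.le]
      calc ((m : ℝ) + 2) * ((N : ℝ) ^ (1 / ((m : ℝ) + 2)) *
            (c₂ ^ (-e) / (2 * ((m : ℝ) + 2)) * ((N : ℝ) ^ e * B ^ (-e))))
          = ((N : ℝ) ^ (1 / ((m : ℝ) + 2)) * (N : ℝ) ^ e) * (c₂ ^ (-e) * B ^ (-e)) / 2 *
            (((m : ℝ) + 2) / ((m : ℝ) + 2)) := by
            field_simp
        _ = (N : ℝ) * (c₂ ^ (-e) * B ^ (-e)) / 2 := by
            rw [h3, div_self hd0.ne', mul_one]
    linarith

end Pool.Agent.Results.MP_a7848c_lc.StabbingLowerBound
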